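import Mathlib

/-!
# MP_3923f3_nt: the constant of Baker is at least log 13 / log 3

A quadruple `(a, b, c, d)` of integers is admissible if `a`, `b`, `c` are nonzero and not all of the
same sign, `a + b + c - d` is even, and each of `gcd(a, b, c)`, `gcd(d, a, b)`, `gcd(d, a, c)`,
`gcd(d, b, c)` is one.  A real number `μ` is good if for every admissible quadruple the equation
`a p + b q + c r = d` has a solution in primes with `max(p, q, r) ≤ 3 |d| + m ^ μ`, where
`m = max(3, |a|, |b|, |c|)`.  The constant `M` of Baker is the infimum of the good numbers.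

The equation `3 p + 2 q - r = 0` is admissible, with `m = 3` and `d = 0`.  Here `p` must be odd, since
otherwise `r` is an even prime larger than two, hence `r ≥ 3 * 3 + 2 * 2 = 13`.  So every good `μ` satisfies
`13 ≤ 3 ^ μ`, that is `μ ≥ log 13 / log 3 = 2.33...`.
-/

set_option autoImplicit false

namespace Pool.Agent.Results.MP_3923f3_nt.BakerConstantAboveOne

/-- Admissible quadruples: the coefficients `a`, `b`, `c` are nonzero and not all of the same sign, the
integer `a + b + c - d` is even, and the four greatest common divisors are one. -/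
def Admissible (a b c d : ℤ) : Prop :=
  a ≠ 0 ∧ b ≠ 0 ∧ c ≠ 0 ∧
  ¬ (0 < a ∧ 0 < b ∧ 0 < c) ∧ ¬ (a < 0 ∧ b < 0 ∧ c < 0) ∧
  Even (a + b + c - d) ∧
  Int.gcd a (Int.gcd b c) = 1 ∧ Int.gcd d (Int.gcd a b) = 1 ∧
  Int.gcd d (Int.gcd a c) = 1 ∧ Int.gcd d (Int.gcd b c) = 1

/-- A real number `μ` is good if every admissible equation `a p + b q + c r = d` has a solution in
primes `p`, `q`, `r`, each of them at most `3 |d| + max(3, |a|, |b|, |c|) ^ μ`. -/
def Good (μ : ℝ) : Prop :=
  ∀ a b c d : ℤ, Admissible a b c d →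
    ∃ p q r : ℕ, p.Prime ∧ q.Prime ∧ r.Prime ∧ a * p + b * q + c * r = d ∧
      max (p : ℝ) (max (q : ℝ) (r : ℝ)) ≤
        3 * |(d : ℝ)| + (max 3 (max |(a : ℝ)| (max |(b : ℝ)| |(c : ℝ)|))) ^ μ

/-- The constant of Baker: the infimum of the good numbers, as an extended real number. -/
noncomputable def bakerConstant : EReal :=
  sInf ((fun μ : ℝ => (μ : EReal)) '' {μ : ℝ | Good μ})

lemma admissible_example : Admissible 3 2 (-1) 0 := by
  refine ⟨by norm_num, by norm_num, by norm_num, by norm_num, by norm_num, ?_, ?_, ?_, ?_, ?_⟩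
  · exact ⟨2, by norm_num⟩
  all_goals decide

lemma thirteen_le {p q r : ℕ} (hp : p.Prime) (hq : q.Prime) (hr : r.Prime)
    (h : (3 : ℤ) * p + 2 * q + (-1) * r = 0) : 13 ≤ r := by
  have h1 : 3 * p + 2 * q = r := by omega
  have hq2 := hq.two_le
  have hp2 := hp.two_le
  rcases hp.eq_two_or_odd with h2 | h2
  · exfalso
    subst h2
    have hev : r % 2 = 0 := by omega
    rcases hr.eq_two_or_odd with h3 | h3 <;> omega
  · omega

lemma good_ge {μ : ℝ} (h : Good μ) : Real.log 13 / Real.log 3 ≤ μ := by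
  obtain ⟨p, q, r, hp, hq, hr, heq, hle⟩ := h 3 2 (-1) 0 admissible_example
  have h13 := thirteen_le hp hq hr (by exact_mod_cast heq)
  have h3 : max (3 : ℝ) (max |((3 : ℤ) : ℝ)| (max |((2 : ℤ) : ℝ)| |((-1 : ℤ) : ℝ)|)) = 3 := by
    norm_num
  rw [h3] at hle
  have h4 : (13 : ℝ) ≤ 3 ^ μ := by
    have h5 : (13 : ℝ) ≤ r := by exact_mod_cast h13
    have h6 : (r : ℝ) ≤ max (p : ℝ) (max (q : ℝ) (r : ℝ)) :=
      le_trans (le_max_right _ _) (le_max_right _ _)
    have h7 : 3 * |((0 : ℤ) : ℝ)| = 0 := by norm_num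
    rw [h7, zero_add] at hle
    linarith
  have h8 := Real.log_le_log (by norm_num) h4
  rw [Real.log_rpow (by norm_num)] at h8
  rw [div_le_iff₀ (Real.log_pos (by norm_num))]
  exact h8

lemma log_bound : (233 / 100 : ℝ) < Real.log 13 / Real.log 3 := by
  rw [lt_div_iff₀ (Real.log_pos (by norm_num))]
  have h : Real.log ((3 : ℝ) ^ 233) < Real.log ((13 : ℝ) ^ 100) :=
    Real.log_lt_log (by positivity) (by norm_num)
  rw [Real.log_pow, Real.log_pow] at h
  push_cast at h
  linarith

/-- **The constant of Baker is at least `log 13 / log 3 > 2.33`; in particular it is not `1`.** -/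
theorem result :
    (∀ μ : ℝ, Good μ → Real.log 13 / Real.log 3 ≤ μ) ∧
    ((Real.log 13 / Real.log 3 : ℝ) : EReal) ≤ bakerConstant ∧
    (233 / 100 : ℝ) < Real.log 13 / Real.log 3 ∧ bakerConstant ≠ 1 := by
  have h1 : ((Real.log 13 / Real.log 3 : ℝ) : EReal) ≤ bakerConstant := by
    apply le_sInf
    rintro x ⟨μ, hμ, rfl⟩
    exact EReal.coe_le_coe_iff.mpr (good_ge hμ)
  refine ⟨fun μ hμ => good_ge hμ, h1, log_bound, ?_⟩
  intro h
  rw [h] at h1
  have h2 : ((Real.log 13 / Real.log 3 : ℝ) : EReal) ≤ ((1 : ℝ) : EReal) := by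
    simpa using h1
  rw [EReal.coe_le_coe_iff] at h2
  have := log_bound
  linarith

end Pool.Agent.Results.MP_3923f3_nt.BakerConstantAboveOne
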