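import Pool.Agent.Q138.PS.UP
import Pool.Agent.Results.MP_3923f3_nt.OneLargeCoefficient

/-!
# Small prime solutions of linear equations with the large coefficient `⌊α P(n)⌋`

Let `q ≥ 2`. Outside a set of real numbers of Hausdorff dimension at most `q / (q + 1 / (q 2 ^ (q - 1)))` (that is `8 / 9` for
`q = 2`) every `α > 0` has the following property. For all `ε > 0` and `T` there is `η > 0` such that for every `A`, all large `N`
and ALL integral polynomials `P` of degree `q` with positive leading coefficient and coefficients of size at most `N ^ η`, for all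
but `N / (log N) ^ A` of the `n ≤ N`, ALL admissible equations `a p + b q + c r = d` with `|c| = ⌊α P(n)⌋`,
`|a|, |b| ≤ (log |c|) ^ T` and arbitrary `d` have a solution in primes with `max(p, q, r) ≤ 3 |d| + m ^ (1 + ε)`,
`m = max(3, |a|, |b|, |c|)`.
-/

set_option autoImplicit false

namespace Pool.Agent.Results.MP_3923f3_nt.CoefficientsAlongRealMultiples

open Finset Filter Topology
open Pool.Agent.Q138.PS
open Pool.Agent.Y883.T5
open Pool.Agent.Y883.T6

/-- all admissible equations with `|c| = n`, `|a|, |b| ≤ (log |c|) ^ T` have a solution in primes of size at most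
`3 |d| + m ^ (1 + ε)` -/
def Good (ε : ℝ) (T n : ℕ) : Prop :=
  ∀ a b c d : ℤ, Admissible a b c d → c.natAbs = n →
    |(a : ℝ)| ≤ Real.log |(c : ℝ)| ^ T → |(b : ℝ)| ≤ Real.log |(c : ℝ)| ^ T → SmallSolution (1 + ε) a b c d

open Classical in
/-- the number of the `1 ≤ n ≤ N` for which `Good ε T ⌊α P(n)⌋` fails -/
noncomputable def bad (ε : ℝ) (T : ℕ) (α : ℝ) (P : Polynomial ℤ) (N : ℕ) : ℕ :=
  ((Icc 1 N).filter fun n : ℕ => ¬ Good ε T ⌊α * ((P.eval (n : ℤ) : ℤ) : ℝ)⌋₊).card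

theorem bad_eq (ε : ℝ) (T : ℕ) (α : ℝ) (P : Polynomial ℤ) (N : ℕ) :
    (bad ε T α P N : ℝ) = cnP (fun n => ¬ Good ε T n) α P N := by
  classical
  unfold bad cnP cn
  refine congrArg _ (congrArg _ ?_)
  ext n
  simp only [mem_filter]

theorem good_mono {ε ε' : ℝ} (h : ε ≤ ε') {T n : ℕ} (hg : Good ε T n) : Good ε' T n := by
  intro a b c d h1 h2 h3 h4
  obtain ⟨p, q, r, hp, hq, hr, he, hle⟩ := hg a b c d h1 h2 h3 h4
  refine ⟨p, q, r, hp, hq, hr, he, hle.trans ?_⟩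
  have h5 : (1 : ℝ) ≤ ((max 3 (max |a| (max |b| |c|)) : ℤ) : ℝ) := by
    have : (1 : ℤ) ≤ max 3 (max |a| (max |b| |c|)) := le_trans (by norm_num) (le_max_left _ _)
    exact_mod_cast this
  have h6 := Real.rpow_le_rpow_of_exponent_le h5 (show 1 + ε ≤ 1 + ε' by linarith)
  linarith

/-- **Theorem.** -/
theorem result (q : ℕ) (hq : 2 ≤ q) :
    ∃ E : Set ℝ, dimH E ≤ ENNReal.ofReal (q / (q + 1 / ((q : ℝ) * 2 ^ (q - 1)))) ∧ ∀ α : ℝ, 0 < α → α ∉ E →
      ∀ ε : ℝ, 0 < ε → ∀ T : ℕ, ∃ η : ℝ, 0 < η ∧ ∀ A : ℕ, ∀ᶠ N : ℕ in atTop, ∀ P : Polynomial ℤ, P.natDegree = q →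
        0 < P.leadingCoeff → (∀ j, |((P.coeff j : ℤ) : ℝ)| ≤ (N : ℝ) ^ η) → (bad ε T α P N : ℝ) ≤ N / Real.log N ^ A := by
  classical
  obtain ⟨E, hE, hg⟩ := exc_pow (ι := ℕ × ℕ) q hq (fun i n => ¬ Good (1 / ((i.1 : ℝ) + 1)) i.2 n)
  refine ⟨E, hE, fun α hα hαE ε hε T => ?_⟩
  obtain ⟨k, hk⟩ := exists_nat_one_div_lt hε
  obtain ⟨η, hη, h1⟩ := hg α hα hαE (k, T)
  refine ⟨η, hη, fun A => ?_⟩
  obtain ⟨D, -, -, h3⟩ := Pool.Agent.Results.MP_3923f3_nt.OneLargeCoefficient.result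
  have h2 := h1 (fun A => by
    obtain ⟨X₀, h4⟩ := h3 (1 / ((k : ℝ) + 1)) (by positivity) A T
    refine ⟨X₀, fun Y hY => le_trans (le_of_eq ?_) (h4 Y hY)⟩
    unfold cn
    refine congrArg _ (congrArg _ ?_)
    ext n
    simp only [mem_filter]
    rfl) A
  filter_upwards [h2] with N hN
  intro P hdeg hlead hco
  refine le_trans ?_ (hN P hdeg hlead hco)
  rw [bad_eq]
  unfold cnP cn
  refine Nat.cast_le.2 (card_le_card ?_)
  intro n hn
  simp only [mem_filter] at hn ⊢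
  exact ⟨hn.1, fun h => hn.2 (good_mono hk.le h)⟩

end Pool.Agent.Results.MP_3923f3_nt.CoefficientsAlongRealMultiples
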