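import Pool.Agent.Q236.BK.Baker

set_option autoImplicit false

/-!
# Baker's constant: exponent one for sets of constants and almost all coefficients

A quadruple `(a, b, c, d)` is admissible (`Admissible`) if `a`, `b`, `c` are nonzero and not all of the same sign,
`a + b + c - d` is even and each of `gcd(a, b, c)`, `gcd(d, a, b)`, `gcd(d, a, c)`, `gcd(d, b, c)` is one. Baker's constant is
the infimum of the `μ` for which all admissible equations `a p + b q + c r = d` have a solution in primes with
`max(p, q, r) ≤ 3 |d| + m ^ μ`, `m = max(3, |a|, |b|, |c|)`.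

**Theorem.** For every `U` there is `B` such that for large `A` and every set `D` of at most `(log A) ^ U` integers (in particular for
EVERY single `d`), for all but `A ^ 3 / (log A) ^ U` of the triples `(a, b, c)` with `|a|, |b|, |c| ≤ A`, all admissible equations
`a p + b q + c r = d` with `d ∈ D` have a solution in primes with

  `max(p, q, r) ≤ (|d| / m + m) (log m) ^ B`.

This is the natural bound, up to the power of the logarithm: `max(p, q, r) ≥ |d| / (3 m)` in every case. In particular
`max(p, q, r) ≤ |d| + m (log m) ^ B` for large `m`, i.e. the exponent is one for almost all coefficients, with a logarithmic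
power saving in the exceptional set, for every `d`.

The `d` with `|d| > A ^ 5` are treated by the starting library (`Pool.Agent.Y883.T6`, three large coefficients), the others by
`Pool.Agent.Q236.BK.main` (see `ManySolutionsEveryConstant`).
-/

namespace Pool.Agent.Results.MP_3923f3_nt.ExponentOneSetsOfConstants

open Finset
open Pool.Agent.Y883.T5 (Admissible)

/-- `m = max(3, |a|, |b|, |c|)` -/
def m (a b c : ℤ) : ℤ := max 3 (max |a| (max |b| |c|))

/-- `a p + b q + c r = d` has a solution in primes with `max(p, q, r) ≤ (|d| / m + m) (log m) ^ B` -/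
def Solvable (B : ℕ) (a b c d : ℤ) : Prop :=
  ∃ p q r : ℕ, p.Prime ∧ q.Prime ∧ r.Prime ∧ a * p + b * q + c * r = d ∧
    ((max p (max q r) : ℕ) : ℝ) ≤ (|(d : ℝ)| / m a b c + m a b c) * Real.log (m a b c) ^ B

open Classical in
/-- the number of the triples `(a, b, c)` of integers of absolute values at most `A` such that, for some `d` of `D`, the equation
`a p + b q + c r = d` is admissible, but not `Solvable` -/
noncomputable def exceptions (B A : ℕ) (D : Finset ℤ) : ℕ :=
  ((Icc (-(A : ℤ)) A ×ˢ (Icc (-(A : ℤ)) A ×ˢ Icc (-(A : ℤ)) A)).filter (fun t : ℤ × ℤ × ℤ =>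
    ∃ d ∈ D, Admissible t.1 t.2.1 t.2.2 d ∧ ¬ Solvable B t.1 t.2.1 t.2.2 d)).card

open Classical in
/-- **Exponent one for sets of constants and almost all coefficients.** -/
theorem result (U : ℕ) :
    ∃ B A0 : ℕ, ∀ A : ℕ, A0 ≤ A → ∀ D : Finset ℤ, (D.card : ℝ) ≤ Real.log A ^ U →
      (exceptions B A D : ℝ) ≤ (A : ℝ) ^ 3 / Real.log A ^ U :=
  Pool.Agent.Q236.BK.baker U

end Pool.Agent.Results.MP_3923f3_nt.ExponentOneSetsOfConstants
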