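import Pool.Agent.Q236.BK.Baker

set_option autoImplicit false

/-!
# Ternary linear equations in primes: many solutions for every constant

A quadruple `(a, b, c, d)` is admissible (`Admissible`) if `a`, `b`, `c` are nonzero and not all of the same sign,
`a + b + c - d` is even and each of `gcd(a, b, c)`, `gcd(d, a, b)`, `gcd(d, a, c)`, `gcd(d, b, c)` is one.

**Theorem.** For every `U` there is `B` such that for large `X` and all `A ≤ X / (log X) ^ B` all but
`A ^ 2 / (log X) ^ U` of the pairs `(a, b)`, `1 ≤ a, b ≤ A`, have the following property: for EVERY integer `d`,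
`|d| ≤ A X / (log X) ^ B`, for all but `A / (log X) ^ U` of the `c`, `|c| ≤ A`, the equation `a p - b q + c r = d`, if it is
admissible, has at least `X ^ 2 / (A (log X) ^ B)` solutions in primes `p, q, r ≤ X`; this is the expected order of
magnitude, up to a power of the logarithm.

Method: for a prime `r` the equation becomes `a p - b q = d - c r`. The theorem for almost all triples
(`Pool.Agent.Results.MP_bf63dc_nt.AlmostAllTriples`, coefficients up to `X / (log X) ^ B`) has few exceptions, and the map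
`(c, r) ↦ d - c r` is at most three to one for the primes `r > X ^ (1 / 2)`: this gives the transfer to EVERY `d`. The common
factors are removed by the choice of the residue class of `r`, by the theorem of Siegel and Walfisz, the inequality of Brun and
Titchmarsh and a mean value estimate for the large prime factors of the coefficients.
-/

namespace Pool.Agent.Results.MP_3923f3_nt.ManySolutionsEveryConstant

open Finset
open Pool.Agent.Y883.T5 (Admissible)

/-- the number of the triples of primes `p, q, r ≤ X` with `a p + b q + c r = d` -/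
def solutions (X : ℕ) (a b c d : ℤ) : ℕ :=
  ((Icc 1 X ×ˢ (Icc 1 X ×ˢ Icc 1 X)).filter (fun t : ℕ × ℕ × ℕ => t.1.Prime ∧ t.2.1.Prime ∧ t.2.2.Prime ∧
    a * t.1 + b * t.2.1 + c * t.2.2 = d)).card

lemma adm_of {a b : ℕ} {c d : ℤ} (h : Admissible a (-(b : ℤ)) c d) : Pool.Agent.Q236.BK.Adm a b c d := by
  have ha : (0 : ℤ) < a := by
    have := h.a_ne
    omega
  have hb : -(b : ℤ) < 0 := by
    have := h.b_ne
    omega
  have h1 := (Pool.Agent.Q236.BK.PW.of h).adm ha hb
  rwa [Int.natAbs_natCast, Int.natAbs_neg, Int.natAbs_natCast] at h1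

open Classical in
/-- **Many solutions for every constant and almost all coefficients.** -/
theorem result (U : ℕ) :
    ∃ B X0 : ℕ, ∀ X : ℕ, X0 ≤ X → ∀ A : ℕ, 1 ≤ A → (A : ℝ) * Real.log X ^ B ≤ X →
      ∃ E ⊆ Icc 1 A ×ˢ Icc 1 A, (E.card : ℝ) ≤ (A : ℝ) ^ 2 / Real.log X ^ U ∧
        ∀ a b : ℕ, (a, b) ∈ Icc 1 A ×ˢ Icc 1 A → (a, b) ∉ E → ∀ d : ℤ, |(d : ℝ)| * Real.log X ^ B ≤ A * X →
          (((Icc (-(A : ℤ)) A).filter (fun c : ℤ => Admissible a (-b) c d ∧
            (solutions X a (-b) c d : ℝ) < (X : ℝ) ^ 2 / (A * Real.log X ^ B))).card : ℝ) ≤ A / Real.log X ^ U := by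
  obtain ⟨B, X0, h⟩ := Pool.Agent.Q236.BK.main U
  refine ⟨B, X0, fun X hX A hA hAX => ?_⟩
  obtain ⟨E, h1, h2, h3⟩ := h X hX A hA hAX
  refine ⟨E, h1, h2, fun a b hab hE d hd => le_trans ?_ (h3 a b hab hE d hd)⟩
  have hsub : (Icc (-(A : ℤ)) A).filter (fun c : ℤ => Admissible a (-b) c d ∧
          (solutions X a (-b) c d : ℝ) < (X : ℝ) ^ 2 / (A * Real.log X ^ B)) ⊆
      (Icc (-(A : ℤ)) A).filter (fun c : ℤ => Pool.Agent.Q236.BK.Adm a b c d ∧
          ((Pool.Agent.Q236.BK.sols X a b c d).card : ℝ) < (X : ℝ) ^ 2 / (A * Real.log X ^ B)) := by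
    intro c hc
    rw [mem_filter] at hc ⊢
    refine ⟨hc.1, adm_of hc.2.1, ?_⟩
    have e : solutions X a (-b) c d = (Pool.Agent.Q236.BK.sols X a b c d).card := by
      unfold solutions Pool.Agent.Q236.BK.sols
      congr 1
      apply filter_congr
      intro t _
      rw [neg_mul, ← sub_eq_add_neg]
    rw [← e]
    exact hc.2.2
  exact_mod_cast card_le_card hsub

end Pool.Agent.Results.MP_3923f3_nt.ManySolutionsEveryConstant
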